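import Pool.Agent.Y6.H.Stm

/-!
# HR-AEH: the detuning of the random symbol holds almost surely
-/

set_option autoImplicit false

open Set Filter Topology MeasureTheory

namespace Pool.Agent.Y431.HR.AEH

open Pool.Agent.Y6.H
open Pool.Agent.Y6.M (Z3 Md br sgz)
open Pool.Agent.Y6.F (ln mx S_CODE S_LAT)

theorem sgn_or {x : ℤ} (h : x ≠ 0) : x.sign = 1 ∨ x.sign = -1 := by
  rcases lt_or_gt_of_ne h with h | h
  · exact Or.inr (Int.sign_eq_neg_one_of_neg h)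
  · exact Or.inl (Int.sign_eq_one_of_pos h)

theorem sgz_or {k : Z3} (hk : k ≠ 0) : sgz k = 1 ∨ sgz k = -1 := by
  unfold Pool.Agent.Y6.M.sgz
  by_cases h0 : k 0 = 0
  · rw [if_neg (not_not.2 h0)]
    by_cases h1 : k 1 = 0
    · rw [if_neg (not_not.2 h1)]
      refine sgn_or fun h2 => hk ?_
      ext j
      fin_cases j
      · exact h0
      · exact h1
      · exact h2
    · rw [if_pos h1]
      exact sgn_or h1
  · rw [if_pos h0]
    exact sgn_or h0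

theorem abs_s (i : Md) : |(sgz i.1.1 : ℝ)| = 1 := by
  rcases sgz_or i.1.2 with h | h
  · rw [h]; norm_num
  · rw [h]; norm_num

/-- the coefficient -/
noncomputable def cf (δ : ℝ) (i : Md) : ℝ := δ * ((sgz i.1.1 : ℝ) * ln i ^ 20)

theorem abs_cf {δ : ℝ} (hδ : 0 < δ) {i : Md} (hi : 1 ≤ ln i) : |cf δ i| = δ * ln i ^ 20 := by
  unfold cf
  rw [abs_mul, abs_mul, abs_s, one_mul, abs_of_pos hδ, abs_of_nonneg (by positivity)]

theorem cf_ne {δ : ℝ} (hδ : 0 < δ) {i : Md} (hi : 1 ≤ ln i) : cf δ i ≠ 0 := by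
  have h0 : 0 < ln i := lt_of_lt_of_le one_pos hi
  have h1 : 0 < |cf δ i| := by
    rw [abs_cf hδ hi]
    positivity
  exact abs_pos.1 h1

theorem ωX_eq {δ : ℝ} {ω₀ X : Md → ℝ} {i : Md} (hi : ¬ Sp i) :
    ωX δ ω₀ X i = cf δ i * X (rp i) + ω₀ i := by
  unfold ωX cf
  rw [if_neg hi]
  ring

theorem rp_freq (i : Md) : (rp i).1.1 = i.1.1 ∨ (rp i).1.1 = -i.1.1 := by
  unfold rp
  split_ifs
  · exact Or.inl rfl
  · exact Or.inr rfl

theorem npar_rp {a i : Md} (h : npar a.1.1 i.1.1) : rp a ≠ rp i := by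
  intro he
  have h1 : a.1.1 = i.1.1 ∨ a.1.1 = -i.1.1 := by
    have h2 : (rp a).1.1 = (rp i).1.1 := by rw [he]
    rcases rp_freq a with h3 | h3 <;> rcases rp_freq i with h4 | h4
    · left; rw [← h3, h2, h4]
    · right; rw [← h3, h2, h4]
    · right; rw [← h4, ← h2, h3, neg_neg]
    · left
      have h5 : -a.1.1 = -i.1.1 := by rw [← h3, h2, h4]
      exact neg_injective h5
  apply h
  rcases h1 with h1 | h1
  · rw [h1]
    refine ⟨by ring, by ring, by ring⟩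
  · rw [h1]
    simp only [Pi.neg_apply]
    refine ⟨by ring, by ring, by ring⟩

theorem aex' (h : S_AEX) (I : Type) [Countable I] (J : I → Finset Md) (c : I → Md → ℝ)
    (r d g : I → ℝ) (hd : ∀ τ, 0 ≤ d τ) (hg : Summable g)
    (hj : ∀ τ, ∃ j, j ∈ J τ ∧ c τ j ≠ 0 ∧ d τ / |c τ j| ≤ g τ) :
    ∀ᵐ X : Md → ℝ ∂(Measure.infinitePi fun _ : Md => unif), ∃ κ : ℝ, 0 < κ ∧
      ∀ τ, κ * d τ ≤ |∑ j ∈ J τ, c τ j * X j + r τ| := by
  choose j0 h1 h2 h3 using hj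
  exact h I Md J c j0 r d hd (fun τ => ⟨h1 τ, h2 τ⟩)
    (Summable.of_nonneg_of_le (fun τ => div_nonneg (hd τ) (abs_nonneg _)) h3 hg)

theorem ratio {δ x y z : ℝ} (hδ : 0 < δ) (hy : 1 ≤ y) (hz : 1 ≤ z) (hyx : y ≤ x) (hzx : z ≤ x) :
    x ^ 12 / (δ * x ^ 20) ≤ δ⁻¹ * ((y ^ 4)⁻¹ * (z ^ 4)⁻¹) := by
  have hx : 0 < x := by linarith
  have h1 : x ^ 12 / (δ * x ^ 20) = δ⁻¹ * (x ^ 8)⁻¹ := by
    field_simp
  rw [h1]
  refine mul_le_mul_of_nonneg_left ?_ (inv_nonneg.2 hδ.le)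
  rw [← mul_inv]
  have h0y : 0 < y := by linarith
  have h0z : 0 < z := by linarith
  refine inv_anti₀ (by positivity) ?_
  calc y ^ 4 * z ^ 4 ≤ x ^ 4 * x ^ 4 :=
        mul_le_mul (pow_le_pow_left₀ h0y.le hyx 4) (pow_le_pow_left₀ h0z.le hzx 4)
          (by positivity) (by positivity)
    _ = x ^ 8 := by ring

theorem part1 (hA : S_AEX) (hC : S_CODE) (hL : S_LAT) (ω₀ : Md → ℝ) {δ : ℝ} (hδ : 0 < δ) :
    ∀ᵐ X : Md → ℝ ∂(Measure.infinitePi fun _ : Md => unif), ∃ κ : ℝ, 0 < κ ∧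
      ∀ i, ¬ Sp i → κ * ln i ^ 16 ≤ |ωX δ ω₀ X i| := by
  have l1 : ∀ i, 1 ≤ ln i := fun i => (hC.2.2.2.2.1 i).1
  have key := aex' hA {i : Md // ¬ Sp i} (fun i => {rp i.1}) (fun i _ => cf δ i.1)
    (fun i => ω₀ i.1) (fun i => ln i.1 ^ 16) (fun i => δ⁻¹ * (ln i.1 ^ 4)⁻¹)
    (fun i => by have := l1 i.1; positivity)
    ((hL.1.1.comp_injective Subtype.val_injective).mul_left δ⁻¹)
    (fun i => ⟨rp i.1, Finset.mem_singleton_self _, cf_ne hδ (l1 i.1), by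
      rw [abs_cf hδ (l1 i.1)]
      have h0 : 0 < ln i.1 := lt_of_lt_of_le one_pos (l1 i.1)
      refine le_of_eq ?_
      field_simp⟩)
  filter_upwards [key] with X hX
  obtain ⟨κ, hκ, h⟩ := hX
  refine ⟨κ, hκ, fun i hi => ?_⟩
  have h1 := h ⟨i, hi⟩
  rw [Finset.sum_singleton] at h1
  rw [ωX_eq hi]
  exact h1

theorem part2 (hA : S_AEX) (hC : S_CODE) (hL : S_LAT) (ω₀ : Md → ℝ) {δ : ℝ} (hδ : 0 < δ) :
    ∀ᵐ X : Md → ℝ ∂(Measure.infinitePi fun _ : Md => unif), ∃ κ : ℝ, 0 < κ ∧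
      ∀ i a, ¬ Sp i → ¬ Sp a → npar a.1.1 i.1.1 →
        κ * max (ln a) (ln i) ^ 12 ≤ |ωX δ ω₀ X a - ωX δ ω₀ X i| := by
  classical
  have l1 : ∀ i, 1 ≤ ln i := fun i => (hC.2.2.2.2.1 i).1
  have hs : Summable fun p : Md × Md => (ln p.1 ^ 4)⁻¹ * (ln p.2 ^ 4)⁻¹ :=
    hL.1.1.mul_of_nonneg hL.1.1 (fun i => by have := l1 i; positivity)
      (fun i => by have := l1 i; positivity)
  have key := aex' hA {p : Md × Md // ¬ Sp p.1 ∧ ¬ Sp p.2 ∧ npar p.2.1.1 p.1.1.1}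
    (fun p => {rp p.1.2, rp p.1.1})
    (fun p j => if j = rp p.1.2 then cf δ p.1.2 else -cf δ p.1.1)
    (fun p => ω₀ p.1.2 - ω₀ p.1.1) (fun p => max (ln p.1.2) (ln p.1.1) ^ 12)
    (fun p => δ⁻¹ * ((ln p.1.1 ^ 4)⁻¹ * (ln p.1.2 ^ 4)⁻¹))
    (fun p => by have := (l1 p.1.2).trans (le_max_left (ln p.1.2) (ln p.1.1)); positivity)
    ((hs.comp_injective Subtype.val_injective).mul_left δ⁻¹)
    (fun p => by
      obtain ⟨⟨i, a⟩, hi, ha, hn⟩ := p
      have hne : rp i ≠ rp a := (npar_rp hn).symm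
      rcases le_total (ln i) (ln a) with h | h
      · refine ⟨rp a, Finset.mem_insert_self _ _, ?_, ?_⟩
        · simp only [if_true]
          exact cf_ne hδ (l1 a)
        · simp only [if_true]
          rw [abs_cf hδ (l1 a), max_eq_left h]
          exact ratio hδ (l1 i) (l1 a) h le_rfl
      · refine ⟨rp i, Finset.mem_insert_of_mem (Finset.mem_singleton_self _), ?_, ?_⟩
        · simp only [if_neg hne]
          exact neg_ne_zero.2 (cf_ne hδ (l1 i))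
        · simp only [if_neg hne]
          rw [abs_neg, abs_cf hδ (l1 i), max_eq_right h]
          exact ratio hδ (l1 i) (l1 a) le_rfl h)
  filter_upwards [key] with X hX
  obtain ⟨κ, hκ, h⟩ := hX
  refine ⟨κ, hκ, fun i a hi ha hn => ?_⟩
  have h1 := h ⟨(i, a), hi, ha, hn⟩
  have hne : rp i ≠ rp a := (npar_rp hn).symm
  rw [Finset.sum_pair hne.symm] at h1
  simp only [if_true, if_neg hne] at h1
  rw [ωX_eq hi, ωX_eq ha]
  refine h1.trans (le_of_eq ?_)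
  congr 1
  ring

theorem npar_add {a b i : Z3} (h : a + b = i) (hn : npar a b) : npar a i ∧ npar b i := by
  have h0 := congrFun h 0
  have h1 := congrFun h 1
  have h2 := congrFun h 2
  simp only [Pi.add_apply] at h0 h1 h2
  constructor
  · rintro ⟨k1, k2, k3⟩
    apply hn
    rw [← h0, ← h1] at k1
    rw [← h1, ← h2] at k2
    rw [← h2, ← h0] at k3
    exact ⟨by linarith, by linarith, by linarith⟩
  · rintro ⟨k1, k2, k3⟩
    apply hn
    rw [← h0, ← h1] at k1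
    rw [← h1, ← h2] at k2
    rw [← h2, ← h0] at k3
    exact ⟨by linarith, by linarith, by linarith⟩

/-- the triples -/
def Tr (t : Md × (Md × Md)) : Prop := ¬ Sp t.1 ∧ ¬ Sp t.2.1 ∧ ¬ Sp t.2.2 ∧
  t.2.1.1.1 + t.2.2.1.1 = t.1.1.1 ∧ npar t.2.1.1.1 t.2.2.1.1

theorem Tr_inj : Function.Injective
    (fun t : {t : Md × (Md × Md) // Tr t} => (((t.1.2.1, t.1.2.2), t.1.1.2) : (Md × Md) × Bool)) := by
  rintro ⟨⟨i, a, b⟩, h⟩ ⟨⟨i', a', b'⟩, h'⟩ he
  have e1 : a = a' := congrArg (fun q : (Md × Md) × Bool => q.1.1) he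
  have e2 : b = b' := congrArg (fun q : (Md × Md) × Bool => q.1.2) he
  have e3 : i.2 = i'.2 := congrArg (fun q : (Md × Md) × Bool => q.2) he
  have e4 : a.1.1 + b.1.1 = i.1.1 := h.2.2.2.1
  have e5 : a'.1.1 + b'.1.1 = i'.1.1 := h'.2.2.2.1
  subst e1 e2
  have e6 : i = i' := Prod.ext (Subtype.ext (e4.symm.trans e5)) e3
  subst e6
  rfl

/-- the coefficients of a triple -/
noncomputable def ct (δ : ℝ) (i a b j : Md) : ℝ :=
  open Classical in
  if j = rp a then cf δ a else if j = rp b then cf δ b else -cf δ i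

theorem mx_cases (i a b : Md) : mx i (a, b) = ln a ∨ mx i (a, b) = ln b ∨ mx i (a, b) = ln i := by
  unfold mx
  rcases max_choice (max (ln a) (ln b)) (ln i) with h | h
  · rcases max_choice (ln a) (ln b) with h' | h'
    · left; exact h.trans h'
    · right; left; exact h.trans h'
  · right; right; exact h

theorem ct_ex {δ : ℝ} (hδ : 0 < δ) (l1 : ∀ i, 1 ≤ ln i) {i a b : Md} {J : Finset Md}
    (ja : rp a ∈ J) (jb : rp b ∈ J) (ji : rp i ∈ J) (hab : a.1.1 + b.1.1 = i.1.1)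
    (hn : npar a.1.1 b.1.1) : ∃ j, j ∈ J ∧ ct δ i a b j ≠ 0 ∧
      mx i (a, b) ^ 12 / |ct δ i a b j| ≤ δ⁻¹ * ((ln a ^ 4)⁻¹ * (ln b ^ 4)⁻¹) := by
  obtain ⟨n1, n2⟩ := npar_add hab hn
  have ba := (npar_rp hn).symm
  have ia := (npar_rp n1).symm
  have ib := (npar_rp n2).symm
  have ma : ln a ≤ mx i (a, b) := (le_max_left (ln a) (ln b)).trans (le_max_left _ _)
  have mb : ln b ≤ mx i (a, b) := (le_max_right (ln a) (ln b)).trans (le_max_left _ _)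
  have ca : ct δ i a b (rp a) = cf δ a := by unfold ct; rw [if_pos rfl]
  have cb : ct δ i a b (rp b) = cf δ b := by unfold ct; rw [if_neg ba, if_pos rfl]
  have ci : ct δ i a b (rp i) = -cf δ i := by unfold ct; rw [if_neg ia, if_neg ib]
  rcases mx_cases i a b with hc | hc | hc
  · refine ⟨rp a, ja, ?_, ?_⟩
    · rw [ca]
      exact cf_ne hδ (l1 a)
    · rw [ca, abs_cf hδ (l1 a), hc]
      rw [hc] at mb
      exact ratio hδ (l1 a) (l1 b) le_rfl mb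
  · refine ⟨rp b, jb, ?_, ?_⟩
    · rw [cb]
      exact cf_ne hδ (l1 b)
    · rw [cb, abs_cf hδ (l1 b), hc]
      rw [hc] at ma
      exact ratio hδ (l1 a) (l1 b) ma le_rfl
  · refine ⟨rp i, ji, ?_, ?_⟩
    · rw [ci]
      exact neg_ne_zero.2 (cf_ne hδ (l1 i))
    · rw [ci, abs_neg, abs_cf hδ (l1 i), hc]
      rw [hc] at ma mb
      exact ratio hδ (l1 a) (l1 b) ma mb

theorem ct_sum [DecidableEq Md] {δ : ℝ} {ω₀ X : Md → ℝ} {i a b : Md} (hi : ¬ Sp i) (ha : ¬ Sp a)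
    (hb : ¬ Sp b) (hab : a.1.1 + b.1.1 = i.1.1) (hn : npar a.1.1 b.1.1) :
    ∑ j ∈ ({rp a, rp b, rp i} : Finset Md), ct δ i a b j * X j + (ω₀ a + ω₀ b - ω₀ i) =
      ωX δ ω₀ X a + ωX δ ω₀ X b - ωX δ ω₀ X i := by
  obtain ⟨n1, n2⟩ := npar_add hab hn
  have ab := npar_rp hn
  have ai := npar_rp n1
  have bi := npar_rp n2
  have ca : ct δ i a b (rp a) = cf δ a := by unfold ct; rw [if_pos rfl]
  have cb : ct δ i a b (rp b) = cf δ b := by unfold ct; rw [if_neg ab.symm, if_pos rfl]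
  have ci : ct δ i a b (rp i) = -cf δ i := by unfold ct; rw [if_neg ai.symm, if_neg bi.symm]
  have hm : rp a ∉ ({rp b, rp i} : Finset Md) := by
    rw [Finset.mem_insert, Finset.mem_singleton]
    exact not_or.2 ⟨ab, ai⟩
  rw [Finset.sum_insert hm, Finset.sum_pair bi, ca, cb, ci, ωX_eq hi, ωX_eq ha, ωX_eq hb]
  ring

theorem sum_abs {M I : Type} (f : M → ℝ) (hf : Summable f) (h0 : ∀ m, 0 ≤ f m)
    (φ : I → (M × M) × Bool) (hφ : Function.Injective φ) :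
    Summable (fun t => f (φ t).1.1 * f (φ t).1.2) := by
  have hs : Summable fun p : M × M => f p.1 * f p.2 := hf.mul_of_nonneg hf h0 h0
  have h1 : Summable (fun _ : Bool => (1 : ℝ)) := (hasSum_fintype _).summable
  have hs2 : Summable fun q : (M × M) × Bool => (f q.1.1 * f q.1.2) * (1 : ℝ) :=
    hs.mul_of_nonneg h1 (fun p => mul_nonneg (h0 _) (h0 _)) (fun _ => zero_le_one)
  simp only [mul_one] at hs2
  exact hs2.comp_injective hφ

theorem Tr_sum (f : Md → ℝ) (hf : Summable f) (h0 : ∀ m, 0 ≤ f m) :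
    Summable (fun t : {t : Md × (Md × Md) // Tr t} => f t.1.2.1 * f t.1.2.2) :=
  sum_abs f hf h0 _ Tr_inj

theorem part3 (hA : S_AEX) (hC : S_CODE) (hL : S_LAT) (ω₀ : Md → ℝ) {δ : ℝ} (hδ : 0 < δ) :
    ∀ᵐ X : Md → ℝ ∂(Measure.infinitePi fun _ : Md => unif), ∃ κ : ℝ, 0 < κ ∧
      ∀ i a b, ¬ Sp i → ¬ Sp a → ¬ Sp b → a.1.1 + b.1.1 = i.1.1 → npar a.1.1 b.1.1 →
        κ * mx i (a, b) ^ 12 ≤ |ωX δ ω₀ X a + ωX δ ω₀ X b - ωX δ ω₀ X i| := by
  classical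
  have l1 : ∀ i, 1 ≤ ln i := fun i => (hC.2.2.2.2.1 i).1
  have h0 : ∀ a : Md, 0 ≤ (ln a ^ 4)⁻¹ := fun a =>
    inv_nonneg.2 (pow_nonneg (zero_le_one.trans (l1 a)) 4)
  have key := aex' hA {t : Md × (Md × Md) // Tr t}
    (fun t => {rp t.1.2.1, rp t.1.2.2, rp t.1.1})
    (fun t j => ct δ t.1.1 t.1.2.1 t.1.2.2 j)
    (fun t => ω₀ t.1.2.1 + ω₀ t.1.2.2 - ω₀ t.1.1) (fun t => mx t.1.1 (t.1.2.1, t.1.2.2) ^ 12)
    (fun t => δ⁻¹ * ((ln t.1.2.1 ^ 4)⁻¹ * (ln t.1.2.2 ^ 4)⁻¹))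
    (fun t => pow_nonneg (zero_le_one.trans ((l1 t.1.1).trans (le_max_right _ _))) 12)
    ((Tr_sum (fun a => (ln a ^ 4)⁻¹) hL.1.1 h0).mul_left δ⁻¹)
    (fun t => ct_ex hδ l1 (Finset.mem_insert_self _ _)
      (Finset.mem_insert_of_mem (Finset.mem_insert_self _ _))
      (Finset.mem_insert_of_mem (Finset.mem_insert_of_mem (Finset.mem_singleton_self _)))
      t.2.2.2.2.1 t.2.2.2.2.2)
  filter_upwards [key] with X hX
  obtain ⟨κ, hκ, h⟩ := hX
  refine ⟨κ, hκ, fun i a b hi ha hb hab hn => ?_⟩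
  have h1 := h ⟨(i, a, b), hi, ha, hb, hab, hn⟩
  rw [← ct_sum hi ha hb hab hn]
  exact h1

theorem t_AEH : Pool.Agent.Y6.H.S_AEH := by
  intro hA hC hL ω₀ _ δ hδ
  have l1 : ∀ i, 1 ≤ ln i := fun i => (hC.2.2.2.2.1 i).1
  filter_upwards [part1 hA hC hL ω₀ hδ, part2 hA hC hL ω₀ hδ, part3 hA hC hL ω₀ hδ] with X h1 h2 h3
  obtain ⟨κ1, k1, h1⟩ := h1
  obtain ⟨κ2, k2, h2⟩ := h2
  obtain ⟨κ3, k3, h3⟩ := h3
  refine ⟨min κ1 (min κ2 κ3), lt_min k1 (lt_min k2 k3), ?_, ?_, ?_⟩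
  · intro i hi
    refine le_trans (mul_le_mul_of_nonneg_right (min_le_left _ _) ?_) (h1 i hi)
    have := l1 i
    positivity
  · intro i a hi ha hn
    refine le_trans (mul_le_mul_of_nonneg_right ((min_le_right _ _).trans (min_le_left _ _)) ?_)
      (h2 i a hi ha hn)
    have := (l1 a).trans (le_max_left (ln a) (ln i))
    positivity
  · intro i a b hi ha hb hab hn
    refine le_trans (mul_le_mul_of_nonneg_right ((min_le_right _ _).trans (min_le_right _ _)) ?_)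
      (h3 i a b hi ha hb hab hn)
    have : 1 ≤ mx i (a, b) := (l1 i).trans (le_max_right _ _)
    positivity

end Pool.Agent.Y431.HR.AEH
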